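import Pool.Agent.W872.SV.Stm

/-! Project SV (owner helper872), part NUM: the final numerical estimate. -/

set_option autoImplicit false

namespace Pool.Agent.W591.SV.NUM

theorem logEv : ∃ n₁ : ℕ, ∀ n ≥ n₁, Real.logb 2 (n : ℝ) ≤ (n : ℝ) / 2000 := by
  have h1 := Real.isLittleO_log_id_atTop
  have hc : (0 : ℝ) < Real.log 2 / 2000 := by positivity
  have h2 := (h1.def hc)
  have h3 := tendsto_natCast_atTop_atTop (R := ℝ) |>.eventually h2
  obtain ⟨n₁, hn₁⟩ := Filter.eventually_atTop.mp h3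
  refine ⟨max n₁ 1, fun n hn => ?_⟩
  have h4 := hn₁ n (le_trans (le_max_left _ _) hn)
  have hn1 : (1 : ℝ) ≤ n := by exact_mod_cast le_trans (le_max_right _ _) hn
  simp only [id, Real.norm_eq_abs] at h4
  rw [abs_of_nonneg (Real.log_nonneg hn1), abs_of_nonneg (by linarith)] at h4
  have hl : 0 < Real.log 2 := Real.log_pos (by norm_num)
  rw [Real.logb, div_le_iff₀ hl]
  calc Real.log (n : ℝ) ≤ Real.log 2 / 2000 * n := h4
    _ = (n : ℝ) / 2000 * Real.log 2 := by ring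

theorem main : W872.SV.PartNUM := by
  obtain ⟨n₁, hL⟩ := logEv
  refine ⟨max n₁ 10000, fun n hn a b N ha hb hN => ?_⟩
  have hn1 : n₁ ≤ n := le_trans (le_max_left _ _) hn
  have hn2 : 10000 ≤ n := le_trans (le_max_right _ _) hn
  have hnr : (10000 : ℝ) ≤ n := by exact_mod_cast hn2
  have hn0 : (0 : ℝ) < n := by linarith
  set L := Real.logb 2 (n : ℝ) with hLdef
  have hL1 : L ≤ (n : ℝ) / 2000 := hL n hn1
  have hnL : (n : ℝ) = (2 : ℝ) ^ L := (Real.rpow_logb (by norm_num) (by norm_num) hn0).symm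
  have hL0 : 0 ≤ L := Real.logb_nonneg (by norm_num) (by linarith)
  set m := n / 240 with hm
  set u := (n - 2) / 4 with hu
  set E := n.choose 2 with hE
  have hEr : (E : ℝ) = (n : ℝ) * (n - 1) / 2 := by
    rw [hE, Nat.cast_choose_two]
  -- the numbers m, u
  have hm1 : (m : ℝ) ≤ n / 240 := by
    have : m * 240 ≤ n := Nat.div_mul_le_self n 240
    have h' : (m : ℝ) * 240 ≤ n := by exact_mod_cast this
    linarith
  have hm2 : (n : ℝ) / 240 - 1 ≤ m := by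
    have : n < (m + 1) * 240 := by omega
    have h' : (n : ℝ) < (m + 1) * 240 := by exact_mod_cast this
    linarith
  have hu1 : (u : ℝ) ≤ n / 4 := by
    have : u * 4 ≤ n := by omega
    have h' : (u : ℝ) * 4 ≤ n := by exact_mod_cast this
    linarith
  have hu2 : ((n : ℝ) - 5) / 4 ≤ u := by
    have : n ≤ u * 4 + 5 := by omega
    have h' : (n : ℝ) ≤ u * 4 + 5 := by exact_mod_cast this
    linarith
  have hM : ((m * (n - 2 * m) : ℕ) : ℝ) = m * (n - 2 * m) := by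
    rw [Nat.cast_mul, Nat.cast_sub (by omega)]; push_cast; ring
  have hK : ((u * (n - u) : ℕ) : ℝ) = u * (n - u) := by
    rw [Nat.cast_mul, Nat.cast_sub (by omega)]
  set T : ℝ := (199 / 200 : ℝ) * (E : ℝ) with hT
  have h2pos : ∀ x : ℝ, 0 < (2 : ℝ) ^ x := fun x => Real.rpow_pos_of_pos (by norm_num) x
  have hap : ∀ k : ℕ, (2 : ℝ) ^ k = (2 : ℝ) ^ (k : ℝ) := fun k => (Real.rpow_natCast 2 k).symm
  -- bound of a
  have hA : (a : ℝ) ≤ (2 : ℝ) ^ (T - 1) := by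
    have h1 : (a : ℝ) * 2 ^ (m * (n - 2 * m)) ≤ (n : ℝ) ^ 4 * (n.factorial : ℝ) * 2 ^ E := by
      exact_mod_cast ha
    have h2 : (n.factorial : ℝ) ≤ (n : ℝ) ^ n := by
      exact_mod_cast Nat.factorial_le_pow n
    have h3 : (n : ℝ) ^ 4 * (n.factorial : ℝ) ≤ (2 : ℝ) ^ (L * (n + 4)) := by
      calc (n : ℝ) ^ 4 * (n.factorial : ℝ) ≤ (n : ℝ) ^ 4 * (n : ℝ) ^ n :=
            mul_le_mul_of_nonneg_left h2 (by positivity)
        _ = (n : ℝ) ^ (n + 4) := by ring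
        _ = ((2 : ℝ) ^ L) ^ (n + 4) := by rw [← hnL]
        _ = (2 : ℝ) ^ (L * (n + 4)) := by
            rw [← Real.rpow_natCast ((2 : ℝ) ^ L), ← Real.rpow_mul (by norm_num)]
            push_cast; ring_nf
    have h4 : (a : ℝ) * (2 : ℝ) ^ ((m : ℝ) * (n - 2 * m)) ≤
        (2 : ℝ) ^ (L * (n + 4)) * (2 : ℝ) ^ (E : ℝ) := by
      rw [hap, hap, hM] at h1
      exact h1.trans (mul_le_mul_of_nonneg_right h3 (h2pos _).le)
    have h5 : (a : ℝ) ≤ (2 : ℝ) ^ (L * (n + 4) + E - (m : ℝ) * (n - 2 * m)) := by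
      rw [Real.rpow_sub (by norm_num), Real.rpow_add (by norm_num), le_div_iff₀ (h2pos _)]
      exact h4
    refine h5.trans (Real.rpow_le_rpow_of_exponent_le (by norm_num) ?_)
    rw [hT, hEr]
    have h6 : L * (n + 4) ≤ (n : ℝ) / 2000 * (n + 4) := by
      apply mul_le_mul_of_nonneg_right hL1; linarith
    have h7 : ((n : ℝ) / 240 - 1) * (n - n / 120) ≤ (m : ℝ) * (n - 2 * m) := by
      apply mul_le_mul hm2 (by linarith) (by linarith) (by linarith)
    nlinarith [h6, h7, hnr]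
  have hB : (b : ℝ) ≤ (2 : ℝ) ^ (T - 1) := by
    have h1 : (b : ℝ) * 2 ^ (u * (n - u)) ≤
        (2 * (n : ℝ) ^ 2 * N) ^ u * ((n : ℝ) ^ 2 * 2 ^ E) := by
      exact_mod_cast hb
    have hN1 : (N : ℝ) ≤ (2 : ℝ) ^ ((n : ℝ) / 4) := by
      have h2 : (N : ℝ) ^ 4 ≤ ((2 : ℝ) ^ ((n : ℝ) / 4)) ^ 4 := by
        have h3 : ((2 : ℝ) ^ ((n : ℝ) / 4)) ^ 4 = (2 : ℝ) ^ n := by
          rw [← Real.rpow_natCast, ← Real.rpow_mul (by norm_num), hap n]
          congr 1; push_cast; ring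
        rw [h3]; exact_mod_cast hN
      exact le_of_pow_le_pow_left₀ (by norm_num) (h2pos _).le h2
    have h3 : 2 * (n : ℝ) ^ 2 * N ≤ (2 : ℝ) ^ (1 + 2 * L + (n : ℝ) / 4) := by
      have h4 : (2 : ℝ) ^ (1 + 2 * L + (n : ℝ) / 4) = 2 * (n : ℝ) ^ 2 * (2 : ℝ) ^ ((n : ℝ) / 4) := by
        rw [Real.rpow_add (by norm_num), Real.rpow_add (by norm_num), Real.rpow_one]
        congr 2
        rw [mul_comm 2 L, Real.rpow_mul (by norm_num), ← hnL]
        norm_num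
      rw [h4]
      exact mul_le_mul_of_nonneg_left hN1 (by positivity)
    have h5 : (2 * (n : ℝ) ^ 2 * N) ^ u ≤ (2 : ℝ) ^ ((1 + 2 * L + (n : ℝ) / 4) * u) := by
      calc (2 * (n : ℝ) ^ 2 * N) ^ u ≤ ((2 : ℝ) ^ (1 + 2 * L + (n : ℝ) / 4)) ^ u :=
            pow_le_pow_left₀ (by positivity) h3 u
        _ = _ := by rw [← Real.rpow_natCast, ← Real.rpow_mul (by norm_num)]
    have h6 : (n : ℝ) ^ 2 * 2 ^ E = (2 : ℝ) ^ (2 * L + E) := by
      rw [Real.rpow_add (by norm_num), mul_comm 2 L, Real.rpow_mul (by norm_num), ← hnL, hap]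
      norm_num
    have h7 : (b : ℝ) * (2 : ℝ) ^ ((u : ℝ) * (n - u)) ≤
        (2 : ℝ) ^ ((1 + 2 * L + (n : ℝ) / 4) * u) * (2 : ℝ) ^ (2 * L + E) := by
      rw [h6, hap (u * (n - u)), hK] at h1
      exact h1.trans (mul_le_mul_of_nonneg_right h5 (h2pos _).le)
    have h8 : (b : ℝ) ≤ (2 : ℝ) ^ ((1 + 2 * L + (n : ℝ) / 4) * u + (2 * L + E)
        - (u : ℝ) * (n - u)) := by
      rw [Real.rpow_sub (by norm_num), Real.rpow_add (by norm_num), le_div_iff₀ (h2pos _)]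
      exact h7
    refine h8.trans (Real.rpow_le_rpow_of_exponent_le (by norm_num) ?_)
    rw [hT, hEr]
    have hu0 : (0 : ℝ) ≤ u := by linarith
    -- u (n - u) ≥ u * 3n/4
    have h9 : (u : ℝ) * (3 * n / 4) ≤ (u : ℝ) * (n - u) :=
      mul_le_mul_of_nonneg_left (by linarith) hu0
    have h10 : (1 + 2 * L + (n : ℝ) / 4) * u ≤ (1 + n / 1000 + (n : ℝ) / 4) * u :=
      mul_le_mul_of_nonneg_right (by linarith) hu0
    have h11 : (n : ℝ) / 5 * (2 * n / 5) ≤ (u : ℝ) * (n / 2 - 1 - n / 1000) :=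
      mul_le_mul (by linarith) (by linarith) (by linarith) hu0
    nlinarith [h9, h10, h11, hL1, hnr]
  have hfin : ((a + b : ℕ) : ℝ) ≤ 2 * (2 : ℝ) ^ (T - 1) := by
    push_cast; linarith
  refine hfin.trans (le_of_eq ?_)
  rw [Real.rpow_sub (by norm_num), Real.rpow_one]
  ring

end Pool.Agent.W591.SV.NUM
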